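import Pool.Agent.Lib.MP_b18d48_nt.Values
import Pool.Agent.Lib.MP_b18d48_nt.Algebra
import Pool.Agent.Lib.MP_b18d48_nt.Points
import Pool.Agent.Lib.MP_b18d48_nt.Reduction
import Pool.Agent.Lib.MP_b18d48_nt.LFun

/-!
A counterexample to Q1 of MP_b18d48_nt: the curve 126a1, `S_m = {2, 7}`, `e_2 = e_7 = 1`, `M = 14`.

The displayed equality in `Q_2 = I^2 / I^3` says that `θ - c ([q_2] - 1) ([q_7] - 1)` lies in
`I^3` for the scalar `c = #Sha * ∏ C_p / τ^2` of `R`.  It fails for every scalar `c` of `R` and all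
units `q_2`, `q_7`.
-/

namespace Pool.Agent.Results.MP_b18d48_nt.Disproof

open Pool.Agent.Lib.MP_b18d48_nt

lemma image2 : ∀ w : ZMod (2 ^ 1), (∃ w', w * w' = 1) →
    (((1 : (ZMod 14)ˣ) : ZMod 14).cast : ZMod (2 ^ 1)) = w := by decide

lemma image7 : ∀ w : ZMod (7 ^ 1), (∃ w', w * w' = 1) → ∃ v : (ZMod 14)ˣ,
    ((v : ZMod 14).cast : ZMod (7 ^ 1)) = w ∧ ((v : ZMod 14).cast : ZMod 2) = 1 := by decide

theorem result : ∀ [Fact (Nat.Prime 7)],
    -- an elliptic curve given by a global minimal model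
    EQ.Δ ≠ 0 ∧ (∀ (p : ℕ) [Fact p.Prime], (EQ.baseChange ℚ_[p]).IsMinimal ℤ_[p]) ∧
    -- split multiplicative reduction at `2` and `7`
    (EQ.baseChange ℚ_[2]).HasSplitMultiplicativeReduction ℤ_[2] ∧
    (EQ.baseChange ℚ_[7]).HasSplitMultiplicativeReduction ℤ_[7] ∧
    -- `τ = #E(ℚ) = 2`
    Nat.card EQ.toAffine.Point = 2 ∧ 0 < Omega EQ ∧
    -- the first Fourier coefficients pin down `f_E`
    (∃! g : CuspForm (CongruenceSubgroup.Gamma0 126 : Subgroup (GL (Fin 2) ℝ)) 2,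
      ∀ n ≤ 48, (UpperHalfPlane.qExpansion 1 g).coeff n = (EQ.LFunction n : ℤ)) ∧
    ∀ g : CuspForm (CongruenceSubgroup.Gamma0 126 : Subgroup (GL (Fin 2) ℝ)) 2,
      (∀ n ≤ 48, (UpperHalfPlane.qExpansion 1 g).coeff n = (EQ.LFunction n : ℤ)) →
      -- the integrals defining `λ(u, 14)` converge
      (∀ (u : (ZMod 14)ˣ) (x : ℝ), x = (u : ZMod 14).val / 14 ∨ x = -((u : ZMod 14).val / 14) →
        MeasureTheory.IntegrableOn
          (fun t : ℝ => g (UpperHalfPlane.ofComplex ((x : ℂ) + t * Complex.I))) (Set.Ioi 0)) ∧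
      ∃ l : GM 14 → ℚ,
        (∀ u : (ZMod 14)ˣ,
          lam (Omega EQ) g ((u : ZMod 14).val / 14) = (l (QuotientGroup.mk u) : ℚ)) ∧
        ∀ R : Subring ℚ,
          R = Subring.closure (insert ((Nat.card EQ.toAffine.Point : ℚ)⁻¹) (Set.range l)) →
        ∃ θ : MonoidAlgebra R (GM 14), (∀ a, ((θ.coeff a : R) : ℚ) = l a) ∧
        ∀ (u₂ : ℤ_[2]ˣ) (u₇ : ℤ_[7]ˣ),
          (∃ v₂ v₇ : (ZMod 14)ˣ, IsImage 14 2 1 7 u₂ v₂ ∧ IsImage 14 7 1 2 u₇ v₇) ∧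
          ∀ v₂ v₇ : (ZMod 14)ˣ, IsImage 14 2 1 7 u₂ v₂ → IsImage 14 7 1 2 u₇ v₇ → ∀ c : R,
          θ - c • ((MonoidAlgebra.of R (GM 14) (QuotientGroup.mk v₂) - 1) *
            (MonoidAlgebra.of R (GM 14) (QuotientGroup.mk v₇) - 1)) ∉ augIdeal R (GM 14) ^ 3 := by
  intro _
  have hΔ : EQ.Δ ≠ 0 := by
    norm_num [EQ, WeierstrassCurve.Δ, WeierstrassCurve.b₂, WeierstrassCurve.b₄,
      WeierstrassCurve.b₆, WeierstrassCurve.b₈]
  refine ⟨hΔ, fun p _ => isMinimal p, split2, split7, card_points, Omega_pos,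
    ⟨ggForm, fun n hn => by rw [lfun_all, ggForm_coeff n hn],
      fun g hg => eq_ggForm g fun n hn => by rw [hg n hn, lfun_all]⟩, fun g hg => ?_⟩
  obtain rfl : g = ggForm := eq_ggForm g fun n hn => by rw [hg n hn, lfun_all]
  obtain ⟨k, hk3, hk⟩ := beta_eq
  refine ⟨fun u x hx => ?_, fun a => ((l1 a * k : ℤ) : ℚ), fun u => ?_, ?_⟩
  · rcases hx with rfl | rfl
    exacts [(lam_values hk u).1.1, (lam_values hk u).1.2]
  · rw [(lam_values hk u).2]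
    beta_reduce
    rw [l1_mk]
    norm_cast
  · rintro R rfl
    refine ⟨.ofCoeff (Finsupp.equivFunOnFinite.symm fun a => ⟨((l1 a * k : ℤ) : ℚ),
      Subring.subset_closure (Or.inr ⟨a, rfl⟩)⟩), fun a => rfl, fun u₂ u₇ => ⟨?_, ?_⟩⟩
    · obtain ⟨v, hv⟩ := image7 _ (u₇.isUnit.map (PadicInt.toZModPow 1)).exists_right_inv
      exact ⟨1, v, ⟨image2 _ (u₂.isUnit.map (PadicInt.toZModPow 1)).exists_right_inv, by decide⟩, hv⟩
    · intro v₂ v₇ h₂ _ c
      rw [← mul_smul_comm]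
      refine not_mem_cube _ (closure_den _ ?_) _ (QuotientGroup.mk 1) ?_ u₂ v₂ h₂ _
      · rintro x (rfl | ⟨a, rfl⟩)
        · rw [card_points]; norm_num
        · beta_reduce
          rw [Rat.den_intCast]
          norm_num
      · change ¬ (3 : ℤ) ∣ ((l1 (QuotientGroup.mk 1) * k : ℤ) : ℚ).num
        rw [l1_mk, show l0 1 = 1 by decide, one_mul, Rat.num_intCast]
        exact hk3

end Pool.Agent.Results.MP_b18d48_nt.Disproof
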